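import Mathlib
import Pool.Agent.Lib.MP_0643f8_an.Defs
import Pool.Agent.Lib.MP_0643f8_an.Proof
import Pool.Agent.Lib.MP_0643f8_an.U.M6_Final

set_option autoImplicit false

open MeasureTheory Metric

namespace Pool.Agent.Results.MP_0643f8_an.UniqueIffShear

open Pool.Agent.MP_0643f8_an.U in
theorem result (d : ℕ) (hd : 2 ≤ d) (lam mu lam' mu' : ℝ) (hmu : 0 < mu)
    (hlam : 0 < (d : ℝ) * lam + 2 * mu) (hlam' : 0 < lam') (hmu' : 0 < mu')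
    (_hne : (lam', mu') ≠ (lam, mu)) (hsign : 0 ≤ (lam - lam') * (mu - mu')) :
    (mu' ≠ mu → ∀ Ω : Set (EuclideanSpace ℝ (Fin d)), IsOpen Ω → Bornology.IsBounded Ω →
      IsConnected Ω → ∀ σ : Measure (EuclideanSpace ℝ (Fin d)), IsFiniteMeasure σ →
      σ (frontier Ω)ᶜ = 0 → ∀ g : Fin d → EuclideanSpace ℝ (Fin d) → ℝ,
      (∀ k, MemLp (g k) 2 σ) → (¬ ∀ k, g k =ᵐ[σ] 0) →
      ∀ (c₁ c₂ : EuclideanSpace ℝ (Fin d)) (r₁ r₂ : ℝ), 0 < r₁ → 0 < r₂ →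
      closedBall c₁ r₁ ⊆ Ω → closedBall c₂ r₂ ⊆ Ω →
      ∀ (u₁ u₂ : Fin d → EuclideanSpace ℝ (Fin d) → ℝ)
        (G₁ G₂ : Fin d → Fin d → EuclideanSpace ℝ (Fin d) → ℝ),
      IsWeakSolution Ω (ball c₁ r₁) lam mu lam' mu' σ g u₁ G₁ →
      IsWeakSolution Ω (ball c₂ r₂) lam mu lam' mu' σ g u₂ G₂ →
      SameTrace Ω u₁ G₁ u₂ G₂ → c₁ = c₂ ∧ r₁ = r₂) ∧
    (mu' = mu → Pool.Agent.MP_0643f8_an.NoBallIsDetermined (EuclideanSpace ℝ (Fin d))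
      lam mu lam' mu') := by
  refine ⟨fun hne Ω hΩ hb hc σ hσf hσ g hg hg0 c₁ c₂ r₁ r₂ h₁ h₂ hb₁ hb₂ u₁ u₂ G₁ G₂ s₁ s₂ ht => ?_,
    fun heq => ?_⟩
  · haveI := hσf
    exact uniqueness ⟨lam, mu, lam', mu', hd, hmu, hlam, hlam', hmu', hsign, hne⟩ hΩ hb hc h₁ h₂
      hb₁ hb₂ hσ hg hg0 s₁ s₂ ht
  · subst heq
    exact Pool.Agent.MP_0643f8_an.main (by simpa using hd) lam mu' lam' hmu

end Pool.Agent.Results.MP_0643f8_an.UniqueIffShear
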